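import Pool.Agent.Lib.MP_4d28ec_h44.Family

/-!
An efficiently isomorphism testable family of Boolean functions that is asymptotically as far as
possible from every function depending on boundedly many coordinates and the Hamming weight.

Construction: `s = s(n)` tends slowly to infinity, `M` is the number of all functions
`φ : {0,1}^s → {0,1}` and `L = s M`. The function `g_n` has `s` hidden coordinates. At a point `x`
with `|x| mod L < M` its value is `φ(y)`, where `φ` is the function with number `|x| mod L` and
`y ∈ {0,1}^s` is `x` restricted to the hidden coordinates; at the other points, nearly the whole
cube, its value is one hidden coordinate of `x`, the one with number `(|x| mod L) mod s`.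
-/

namespace Pool.Agent.Results.MP_4d28ec_lc.ConjectureFails

open Pool.Agent.MP4d28ec

/-- There is a family of Boolean functions that is efficiently isomorphism testable, although for
every `k` and every `c < 1/2`, for all large `n` its member `g n` is at distance at least `c` from
every `k`-partially symmetric function. -/
theorem result : ∃ g : (n : ℕ) → Cube n → Bool, EfficientlyTestable g ∧
    ∀ (k : ℕ) (c : ℝ), c < 1 / 2 → ∃ n₀ : ℕ, ∀ n ≥ n₀, ∀ h : Cube n → Bool,
      PartiallySymmetric k h → c ≤ dist (g n) h :=
  ⟨fam, fam_testable, fam_far⟩

end Pool.Agent.Results.MP_4d28ec_lc.ConjectureFails
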