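import Pool.Agent.Lib.MP_4d28ec_h44.Plain

/-!
Efficient isomorphism testability is not invariant under changes of the functions on a vanishing
fraction of the cube.

Construction: `s = s(n)` tends slowly to infinity. The function `g'_n` has value `x_i` at `x`, where
`i = |x| mod s` is a hidden coordinate determined by the Hamming weight. It is not testable, since
`q` queries cannot see that a quarter of the hidden coordinates is used in place of all of them.
The function `g_n` differs from `g'_n` only on the fraction about `1 / s` of the cube, where it
carries the long code of the hidden coordinates; this makes it testable.
-/

namespace Pool.Agent.Results.MP_4d28ec_lc.NotRobust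

open Pool.Agent.MP4d28ec

/-- There are two families of Boolean functions whose distance tends to zero, the first efficiently
isomorphism testable and the second not. -/
theorem result : ∃ g g' : (n : ℕ) → Cube n → Bool, EfficientlyTestable g ∧
    ¬ EfficientlyTestable g' ∧
    Filter.Tendsto (fun n => dist (g n) (g' n)) Filter.atTop (nhds 0) :=
  ⟨fam, plain, fam_testable, plain_not_testable, plain_close⟩

end Pool.Agent.Results.MP_4d28ec_lc.NotRobust
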