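import Pool.Agent.Lib.MP_4d28ec_Lift.N9
import Pool.Agent.Lib.MP_4d28ec_Lift.Approx
import Pool.Agent.Lib.MP_4d28ec_Lift.Suff

/-!
Every family of Boolean functions that is, for every `ε > 0`, `ε`-close to functions of `k(ε)`
coordinates and the Hamming weight is efficiently isomorphism testable. For families that are
stable on the middle slices this condition is also necessary. All families that are approximable
on the middle slices by combinations of boundedly many polynomial threshold functions of bounded
degree are of this kind.
-/

namespace Pool.Agent.Results.MP_4d28ec_lc.StableFamilies

open Pool.Agent.MP4d28ec

/-- For every family `g` of Boolean functions: if `g` is `ε`-close to `k(ε)`-partially symmetric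
functions for every `ε > 0` then it is efficiently isomorphism testable; the converse holds if `g`
is stable on the middle slices; and this is the case if `g` is approximable on the middle slices by
combinations of boundedly many polynomial threshold functions of bounded degree. -/
theorem result (g : (n : ℕ) → Cube n → Bool) :
    (CloseToPS g → EfficientlyTestable g) ∧
    (SliceStable g → (EfficientlyTestable g ↔ CloseToPS g)) ∧
    (PTFApproximable g → SliceStable g) :=
  ⟨Suff.testable_of_closeToPS,
    fun hs => ⟨closeToPS_of_testable hs, Suff.testable_of_closeToPS⟩,
    sliceStable_of_ptfApproximable⟩

end Pool.Agent.Results.MP_4d28ec_lc.StableFamilies
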