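import Pool.Agent.Lib.MP_4d28ec_h44.Avg

/-!
Necessary and sufficient conditions for efficient isomorphism testability in terms of the
statistics of finitely many values, in two forms: for random functions and all tuples of points,
and for single functions and one fixed probability distribution on tuples of points.
-/

namespace Pool.Agent.Results.MP_4d28ec_lc.StatisticsCharacterization

open Pool.Agent.MP4d28ec

/-- For every family `g` of Boolean functions the following are equivalent: `g` is efficiently
isomorphism testable; `g` is rigid; `g` is rigid on average. -/
theorem result (g : (n : ℕ) → Cube n → Bool) :
    List.TFAE [EfficientlyTestable g, Rigid g, AverageRigid g] := by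
  tfae_have 1 ↔ 2 := testable_iff_rigid g
  tfae_have 1 ↔ 3 := testable_iff_average g
  tfae_finish

end Pool.Agent.Results.MP_4d28ec_lc.StatisticsCharacterization
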